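import Pool.Agent.W488.IW.Stm

/-! Project IW, part PVC: principal value for compactly supported primitives. -/

set_option autoImplicit false

namespace Pool.Agent.W191.IW.Pvc

open MeasureTheory Set Filter Topology Pool.Agent.W488.IW

theorem contDiff_dzb {f : ℂ → ℂ} (hf : ContDiff ℝ (⊤ : ℕ∞) f) :
    ContDiff ℝ (⊤ : ℕ∞) (dzb f) := by
  have h1 : ContDiff ℝ (⊤ : ℕ∞) (fderiv ℝ f) := hf.fderiv_right (by simp)
  unfold dzb
  have a1 : ContDiff ℝ (⊤ : ℕ∞) (fun z => fderiv ℝ f z 1) := h1.clm_apply contDiff_const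
  have a2 : ContDiff ℝ (⊤ : ℕ∞) (fun z => fderiv ℝ f z Complex.I) := h1.clm_apply contDiff_const
  exact contDiff_const.mul (a1.add (contDiff_const.mul a2))

theorem hasCompactSupport_dzb {f : ℂ → ℂ} (hf : HasCompactSupport f) :
    HasCompactSupport (dzb f) := by
  have h1 : HasCompactSupport (fderiv ℝ f) := hf.fderiv ℝ
  refine h1.mono ?_
  intro z hz
  rw [Function.mem_support] at hz ⊢
  intro h
  apply hz
  unfold dzb
  rw [h]
  simp

theorem tendsto_zero {F : ℂ → ℂ} {C : ℝ} (h : ∀ z, ‖F z‖ * (1 + ‖z‖) ≤ C) :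
    Tendsto F (cocompact ℂ) (𝓝 0) := by
  rw [tendsto_zero_iff_norm_tendsto_zero]
  have h1 : Tendsto (fun z : ℂ => C / (1 + ‖z‖)) (cocompact ℂ) (𝓝 0) := by
    apply Tendsto.const_div_atTop
    exact tendsto_atTop_add_const_left _ _ (tendsto_norm_cocompact_atTop)
  refine squeeze_zero (fun z => norm_nonneg _) (fun z => ?_) h1
  rw [le_div_iff₀ (by positivity)]
  exact h z

theorem eq_of_dzb {F f : ℂ → ℂ} (hF : ContDiff ℝ (⊤ : ℕ∞) F) (hf : ContDiff ℝ (⊤ : ℕ∞) f)
    (hd : ∀ z, dzb F z = dzb f z) (hF0 : Tendsto F (cocompact ℂ) (𝓝 0))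
    (hf0 : Tendsto f (cocompact ℂ) (𝓝 0)) : F = f := by
  have hdF : Differentiable ℝ F := hF.differentiable (by simp)
  have hdf : Differentiable ℝ f := hf.differentiable (by simp)
  have hG : Differentiable ℂ (fun z => F z - f z) := by
    intro z
    rw [differentiableAt_complex_iff_differentiableAt_real]
    refine ⟨(hdF z).sub (hdf z), ?_⟩
    have e1 : fderiv ℝ (fun z => F z - f z) z = fderiv ℝ F z - fderiv ℝ f z :=
      fderiv_fun_sub (hdF z) (hdf z)
    rw [e1]
    have h2 := hd z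
    unfold dzb at h2
    simp only [sub_apply, smul_eq_mul]
    have hI : Complex.I * Complex.I = -1 := Complex.I_mul_I
    linear_combination (-2 * Complex.I) * h2 - (fderiv ℝ F z Complex.I - fderiv ℝ f z Complex.I) * (-hI)
  have h3 : Tendsto (fun z => F z - f z) (cocompact ℂ) (𝓝 0) := by
    simpa using hF0.sub hf0
  have h4 := hG.eq_const_of_tendsto_cocompact h3
  funext z
  have := congrFun h4 z
  simp only [Function.const_apply] at this
  exact sub_eq_zero.mp this

theorem main (h : S_PV) : S_PVC := by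
  intro f hf hc
  obtain ⟨F, hF, hdF, hPV, C, hC⟩ := h (dzb f) (contDiff_dzb hf) (hasCompactSupport_dzb hc)
  have h1 : F = f := eq_of_dzb hF hf hdF (tendsto_zero (fun z => (hC z).1)) hc.is_zero_at_infty
  rw [h1] at hPV
  exact hPV

end Pool.Agent.W191.IW.Pvc
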