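import Pool.Agent.W191.IW.Cut

/-! Project IW, part UB: upper bound for the principal value transform. -/

set_option autoImplicit false

namespace Pool.Agent.W191.IW.Ub

open MeasureTheory Set Filter Topology Metric Pool.Agent.W488.IW Pool.Agent.W191.IW.Pvc
open Pool.Agent.W191.IW.Cut

theorem contDiff_conj {n : WithTop ℕ∞} {f : ℂ → ℂ} (hf : ContDiff ℝ n f) :
    ContDiff ℝ n (fun z => (starRingEnd ℂ) (f z)) :=
  Complex.conjCLE.contDiff.comp hf

theorem fderiv_conj {f : ℂ → ℂ} (hf : Differentiable ℝ f) (z v : ℂ) :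
    fderiv ℝ (fun z => (starRingEnd ℂ) (f z)) z v = (starRingEnd ℂ) (fderiv ℝ f z v) := by
  have h1 : HasFDerivAt (fun z => (starRingEnd ℂ) (f z))
      ((Complex.conjCLE : ℂ →L[ℝ] ℂ).comp (fderiv ℝ f z)) z :=
    (Complex.conjCLE : ℂ →L[ℝ] ℂ).hasFDerivAt.comp z (hf z).hasFDerivAt
  rw [h1.fderiv]
  rfl

theorem dz_conj {f : ℂ → ℂ} (hf : Differentiable ℝ f) (z : ℂ) :
    dz (fun z => (starRingEnd ℂ) (f z)) z = (starRingEnd ℂ) (dzb f z) := by
  unfold dz dzb
  rw [fderiv_conj hf, fderiv_conj hf]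
  simp only [map_mul, map_add, map_div₀, map_one, map_ofNat, Complex.conj_I]
  ring

theorem dzb_conj {f : ℂ → ℂ} (hf : Differentiable ℝ f) (z : ℂ) :
    dzb (fun z => (starRingEnd ℂ) (f z)) z = (starRingEnd ℂ) (dz f z) := by
  unfold dz dzb
  rw [fderiv_conj hf, fderiv_conj hf]
  simp only [map_mul, map_sub, map_div₀, map_one, map_ofNat, Complex.conj_I]
  ring

theorem hasCompactSupport_conj {f : ℂ → ℂ} (hf : HasCompactSupport f) :
    HasCompactSupport (fun z => (starRingEnd ℂ) (f z)) :=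
  hf.comp_left (g := fun w => (starRingEnd ℂ) w) (map_zero _)

theorem iw_conj {p A : ℝ}
    (hIW : ∀ f : ℂ → ℂ, ContDiff ℝ 1 f → HasCompactSupport f →
      ∫ z, ‖dzb f z‖ ^ p ≤ A * ∫ z, ‖dz f z‖ ^ p) :
    ∀ f : ℂ → ℂ, ContDiff ℝ 1 f → HasCompactSupport f →
      ∫ z, ‖dz f z‖ ^ p ≤ A * ∫ z, ‖dzb f z‖ ^ p := by
  intro f hf hc
  have h1 := hIW _ (contDiff_conj hf) (hasCompactSupport_conj hc)
  have hd : Differentiable ℝ f := hf.differentiable (by simp)
  simp only [dz_conj hd, dzb_conj hd, RCLike.norm_conj] at h1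
  exact h1

theorem main (p0 : ℝ) (h : S_PV) : S_UB p0 := by
  intro hIW h2 p hp g hg hgc Tg hT
  obtain ⟨f, hf, hdf, hPV, C, hC⟩ := h g hg hgc
  have hTg : Tg = dz f := funext fun x => tendsto_nhds_unique (hT x) (hPV x)
  have hp2 : 2 ≤ p := h2.trans hp
  have hp0 : 0 < p := by linarith
  have hf1 : ContDiff ℝ 1 f := hf.of_le (by exact_mod_cast le_top)
  obtain ⟨hi, hle⟩ := cutoff hp2 (A := (p - 1) ^ p) (by apply Real.rpow_nonneg; linarith)
    (iw_conj (fun f hf hc => hIW p hp f hf hc)) hf1 hdf hgc (fun z => (hC z).1)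
  have htr : (ENNReal.ofReal p).toReal = p := ENNReal.toReal_ofReal hp0.le
  have hne : ENNReal.ofReal p ≠ 0 := by simpa using hp0
  have hmf : MemLp (dz f) (ENNReal.ofReal p) volume := by
    rw [← integrable_norm_rpow_iff (continuous_dz hf1).aestronglyMeasurable hne
      ENNReal.ofReal_ne_top, htr]
    exact hi
  have hmg : MemLp g (ENNReal.ofReal p) volume :=
    hg.continuous.memLp_of_hasCompactSupport hgc
  rw [hTg, hmf.eLpNorm_eq_integral_rpow_norm hne ENNReal.ofReal_ne_top,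
    hmg.eLpNorm_eq_integral_rpow_norm hne ENNReal.ofReal_ne_top, htr,
    ← ENNReal.ofReal_mul (by linarith)]
  apply ENNReal.ofReal_le_ofReal
  have h0 : (0 : ℝ) ≤ ∫ z, ‖dz f z‖ ^ p := integral_nonneg fun z => by positivity
  have h0' : (0 : ℝ) ≤ ∫ z, ‖g z‖ ^ p := integral_nonneg fun z => by positivity
  calc (∫ z, ‖dz f z‖ ^ p) ^ p⁻¹ ≤ ((p - 1) ^ p * ∫ z, ‖g z‖ ^ p) ^ p⁻¹ :=
        Real.rpow_le_rpow h0 hle (by positivity)
    _ = (p - 1) * (∫ z, ‖g z‖ ^ p) ^ p⁻¹ := by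
        rw [Real.mul_rpow (by apply Real.rpow_nonneg; linarith) h0',
          Real.rpow_rpow_inv (by linarith) hp0.ne']

end Pool.Agent.W191.IW.Ub
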