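import Pool.Agent.W191.IW.Pvc

/-! Project IW: the cut-off lemma. -/

set_option autoImplicit false

namespace Pool.Agent.W191.IW.Cut

open MeasureTheory Set Filter Topology Metric Pool.Agent.W488.IW Pool.Agent.W191.IW.Pvc

/-- the bump -/
noncomputable def bp : ContDiffBump (0 : ℂ) := ⟨1, 2, one_pos, one_lt_two⟩

/-- the cut-off function -/
noncomputable def ct (R : ℝ) (F : ℂ → ℂ) (z : ℂ) : ℂ := bp (R⁻¹ • z) • F z

theorem continuous_dz {f : ℂ → ℂ} (hf : ContDiff ℝ 1 f) : Continuous (dz f) := by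
  have h1 : Continuous (fderiv ℝ f) := hf.continuous_fderiv (by simp)
  unfold dz
  fun_prop

theorem continuous_dzb {f : ℂ → ℂ} (hf : ContDiff ℝ 1 f) : Continuous (dzb f) := by
  have h1 : Continuous (fderiv ℝ f) := hf.continuous_fderiv (by simp)
  unfold dzb
  fun_prop

theorem contDiff_ct {R : ℝ} {F : ℂ → ℂ} (hF : ContDiff ℝ 1 F) : ContDiff ℝ 1 (ct R F) := by
  unfold ct
  have h1 : ContDiff ℝ 1 (fun z : ℂ => bp (R⁻¹ • z)) :=
    (bp.contDiff (n := 1)).comp (contDiff_const_smul _)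
  exact h1.smul hF

theorem ct_zero {R : ℝ} (hR : 0 < R) {F : ℂ → ℂ} {z : ℂ} (hz : 2 * R ≤ ‖z‖) : ct R F z = 0 := by
  unfold ct
  have : bp (R⁻¹ • z) = 0 := by
    apply bp.zero_of_le_dist
    rw [dist_zero_right, norm_smul, norm_inv, Real.norm_of_nonneg hR.le]
    change (2 : ℝ) ≤ _
    rw [inv_mul_eq_div, le_div_iff₀ hR]
    exact hz
  rw [this, zero_smul]

theorem ct_one {R : ℝ} (hR : 0 < R) {F : ℂ → ℂ} {z : ℂ} (hz : ‖z‖ < R) : ct R F z = F z := by
  unfold ct
  have : bp (R⁻¹ • z) = 1 := by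
    apply bp.one_of_mem_closedBall
    rw [mem_closedBall, dist_zero_right, norm_smul, norm_inv, Real.norm_of_nonneg hR.le]
    change _ ≤ (1 : ℝ)
    rw [inv_mul_eq_div, div_le_one hR]
    exact hz.le
  rw [this, one_smul]

theorem hasCompactSupport_ct {R : ℝ} (hR : 0 < R) (F : ℂ → ℂ) : HasCompactSupport (ct R F) := by
  apply HasCompactSupport.of_support_subset_isCompact (isCompact_closedBall (0 : ℂ) (2 * R))
  intro z hz
  rw [Function.mem_support] at hz
  rw [mem_closedBall, dist_zero_right]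
  by_contra h
  exact hz (ct_zero hR (le_of_not_ge h))

theorem fderiv_ct {R : ℝ} {F : ℂ → ℂ} (hF : ContDiff ℝ 1 F) (z v : ℂ) :
    fderiv ℝ (ct R F) z v = bp (R⁻¹ • z) • fderiv ℝ F z v
      + (R⁻¹ * fderiv ℝ (bp : ℂ → ℝ) (R⁻¹ • z) v) • F z := by
  have h1 : HasFDerivAt (bp : ℂ → ℝ) (fderiv ℝ (bp : ℂ → ℝ) (R⁻¹ • z)) (R⁻¹ • z) :=
    ((bp.contDiff (n := 1)).differentiable (by simp) _).hasFDerivAt
  have h2 : HasFDerivAt (fun z : ℂ => R⁻¹ • z) (R⁻¹ • ContinuousLinearMap.id ℝ ℂ) z :=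
    (hasFDerivAt_id z).const_smul R⁻¹
  have h3 := h1.comp z h2
  have h4 : HasFDerivAt F (fderiv ℝ F z) z := ((hF.differentiable (by simp)) z).hasFDerivAt
  have h5 := h3.smul h4
  have h6 : fderiv ℝ (ct R F) z = _ := h5.fderiv
  rw [h6]
  simp [ContinuousLinearMap.comp_apply]

theorem ctz_eq {R : ℝ} (hR : 0 < R) {F : ℂ → ℂ} {z : ℂ} (hz : ‖z‖ < R) :
    fderiv ℝ (ct R F) z = fderiv ℝ F z := by
  apply Filter.EventuallyEq.fderiv_eq
  have h1 : ∀ᶠ w in 𝓝 z, ‖w‖ < R := (continuous_norm.tendsto z).eventually (gt_mem_nhds hz)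
  filter_upwards [h1] with w hw
  exact ct_one hR hw

theorem ctz_zero {R : ℝ} (hR : 0 < R) {F : ℂ → ℂ} {z : ℂ} (hz : 2 * R < ‖z‖) :
    fderiv ℝ (ct R F) z = 0 := by
  have h0 : ct R F =ᶠ[𝓝 z] fun _ => 0 := by
    have h1 : ∀ᶠ w in 𝓝 z, 2 * R < ‖w‖ := (continuous_norm.tendsto z).eventually (lt_mem_nhds hz)
    filter_upwards [h1] with w hw
    exact ct_zero hR hw.le
  rw [h0.fderiv_eq]
  simp

theorem bp_bound : ∃ M : ℝ, 0 ≤ M ∧ ∀ z v, ‖fderiv ℝ (bp : ℂ → ℝ) z v‖ ≤ M * ‖v‖ := by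
  have h1 : Continuous (fderiv ℝ (bp : ℂ → ℝ)) := (bp.contDiff (n := 1)).continuous_fderiv (by simp)
  have h2 : HasCompactSupport (fderiv ℝ (bp : ℂ → ℝ)) := bp.hasCompactSupport.fderiv ℝ
  obtain ⟨M, hM⟩ := h2.exists_bound_of_continuous h1
  refine ⟨M, (norm_nonneg _).trans (hM 0), fun z v => ?_⟩
  exact (ContinuousLinearMap.le_opNorm _ _).trans (mul_le_mul_of_nonneg_right (hM z) (norm_nonneg _))

theorem dzb_ct_le {R : ℝ} (hR : 0 < R) {F : ℂ → ℂ} (hF : ContDiff ℝ 1 F) {M : ℝ}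
    (hM : ∀ z v, ‖fderiv ℝ (bp : ℂ → ℝ) z v‖ ≤ M * ‖v‖) (z : ℂ) :
    ‖dzb (ct R F) z - bp (R⁻¹ • z) • dzb F z‖ ≤ M / R * ‖F z‖ := by
  have e : dzb (ct R F) z - bp (R⁻¹ • z) • dzb F z
      = (1 / 2 * ((R⁻¹ * fderiv ℝ (bp : ℂ → ℝ) (R⁻¹ • z) 1 : ℝ)
          + Complex.I * (R⁻¹ * fderiv ℝ (bp : ℂ → ℝ) (R⁻¹ • z) Complex.I : ℝ))) * F z := by
    unfold dzb
    rw [fderiv_ct hF, fderiv_ct hF]
    simp only [Complex.real_smul]
    ring
  rw [e, norm_mul]
  apply mul_le_mul_of_nonneg_right _ (norm_nonneg _)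
  have h1 := hM (R⁻¹ • z) 1
  have h2 := hM (R⁻¹ • z) Complex.I
  rw [norm_one, mul_one] at h1
  rw [Complex.norm_I, mul_one] at h2
  have hRi : 0 < R⁻¹ := inv_pos.mpr hR
  calc ‖(1 / 2 * ((R⁻¹ * fderiv ℝ (bp : ℂ → ℝ) (R⁻¹ • z) 1 : ℝ)
          + Complex.I * (R⁻¹ * fderiv ℝ (bp : ℂ → ℝ) (R⁻¹ • z) Complex.I : ℝ)) : ℂ)‖
      ≤ 1 / 2 * (‖(R⁻¹ * fderiv ℝ (bp : ℂ → ℝ) (R⁻¹ • z) 1 : ℝ)‖
        + ‖(R⁻¹ * fderiv ℝ (bp : ℂ → ℝ) (R⁻¹ • z) Complex.I : ℝ)‖) := by
        rw [norm_mul]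
        have : ‖(1 / 2 : ℂ)‖ = 1 / 2 := by norm_num
        rw [this]
        apply mul_le_mul_of_nonneg_left _ (by norm_num)
        refine (norm_add_le _ _).trans ?_
        rw [norm_mul, Complex.norm_I, one_mul, Complex.norm_real, Complex.norm_real]
    _ ≤ 1 / 2 * (R⁻¹ * M + R⁻¹ * M) := by
        rw [norm_mul, norm_mul, Real.norm_of_nonneg hRi.le]
        gcongr
    _ = M / R := by ring

theorem cutoff {p A : ℝ} (hp : 2 ≤ p) (hA : 0 ≤ A)
    (hIW : ∀ f : ℂ → ℂ, ContDiff ℝ 1 f → HasCompactSupport f →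
      ∫ z, ‖dz f z‖ ^ p ≤ A * ∫ z, ‖dzb f z‖ ^ p)
    {F g : ℂ → ℂ} (hF : ContDiff ℝ 1 F) (hg : ∀ z, dzb F z = g z) (hgc : HasCompactSupport g)
    {C : ℝ} (hC : ∀ z, ‖F z‖ * (1 + ‖z‖) ≤ C) :
    Integrable (fun z => ‖dz F z‖ ^ p) ∧ ∫ z, ‖dz F z‖ ^ p ≤ A * ∫ z, ‖g z‖ ^ p := by
  obtain ⟨M, hM0, hM⟩ := bp_bound
  have hp0 : 0 ≤ p := by linarith
  have hC0 : 0 ≤ C := (by positivity : (0 : ℝ) ≤ ‖F 0‖ * (1 + ‖(0 : ℂ)‖)).trans (hC 0)
  have hgcont : Continuous g := by
    have : g = dzb F := funext fun z => (hg z).symm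
    rw [this]
    exact continuous_dzb hF
  have hgi : Integrable (fun z => ‖g z‖ ^ p) := by
    apply Continuous.integrable_of_hasCompactSupport
    · exact hgcont.norm.rpow_const (fun _ => Or.inr hp0)
    · apply hgc.norm.comp_left (g := fun t : ℝ => t ^ p)
      exact Real.zero_rpow (by linarith)
  have hcz : Continuous (fun z => ‖dz F z‖ ^ p) :=
    (continuous_dz hF).norm.rpow_const (fun _ => Or.inr hp0)
  -- the bound with R
  obtain ⟨R0, hR0, hsupp⟩ : ∃ R0 : ℝ, 1 ≤ R0 ∧ ∀ z, R0 ≤ ‖z‖ → g z = 0 := by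
    obtain ⟨r, hr⟩ := (hgc.isBounded).subset_closedBall (0 : ℂ)
    refine ⟨max 1 (r + 1), le_max_left _ _, fun z hz => ?_⟩
    by_contra h
    have h1 : z ∈ tsupport g := subset_tsupport _ h
    have h2 := hr h1
    rw [mem_closedBall, dist_zero_right] at h2
    have := (le_max_right 1 (r + 1)).trans hz
    linarith
  have key : ∀ R : ℝ, R0 ≤ R → ∫ z, ‖dzb (ct R F) z‖ ^ p
      ≤ (∫ z, ‖g z‖ ^ p) + (M * C) ^ p * (4 * Real.pi) / R ^ 2 := by
    intro R hR
    have hR1 : 1 ≤ R := hR0.trans hR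
    have hRp : 0 < R := by linarith
    have hpt : ∀ z, ‖dzb (ct R F) z‖ ^ p ≤ ‖g z‖ ^ p
        + (closedBall (0 : ℂ) (2 * R)).indicator (fun _ => (M * C / R ^ 2) ^ p) z := by
      intro z
      rcases lt_or_ge ‖z‖ R with h1 | h1
      · have e1 : dzb (ct R F) z = g z := by
          rw [← hg z]
          unfold dzb
          rw [ctz_eq hRp h1]
        rw [e1]
        have : 0 ≤ (closedBall (0 : ℂ) (2 * R)).indicator (fun _ => (M * C / R ^ 2) ^ p) z :=
          indicator_nonneg (fun _ _ => by positivity) z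
        linarith
      · rcases le_or_gt ‖z‖ (2 * R) with h2 | h2
        · have hm : z ∈ closedBall (0 : ℂ) (2 * R) := by
            rw [mem_closedBall, dist_zero_right]; exact h2
          rw [indicator_of_mem hm]
          have h3 := dzb_ct_le hRp hF hM z
          rw [hg z, hsupp z (hR.trans h1), smul_zero, sub_zero] at h3
          have h4 : ‖F z‖ ≤ C / R := by
            rw [le_div_iff₀ hRp]
            have := hC z
            nlinarith [norm_nonneg (F z)]
          have h5 : ‖dzb (ct R F) z‖ ≤ M * C / R ^ 2 := by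
            refine h3.trans ?_
            calc M / R * ‖F z‖ ≤ M / R * (C / R) := by gcongr
              _ = M * C / R ^ 2 := by field_simp
          have h6 : ‖dzb (ct R F) z‖ ^ p ≤ (M * C / R ^ 2) ^ p :=
            Real.rpow_le_rpow (norm_nonneg _) h5 hp0
          have h7 : 0 ≤ ‖g z‖ ^ p := by positivity
          linarith
        · have e1 : dzb (ct R F) z = 0 := by
            unfold dzb
            rw [ctz_zero hRp h2]
            simp
          rw [e1, norm_zero, Real.zero_rpow (by linarith)]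
          have : 0 ≤ (closedBall (0 : ℂ) (2 * R)).indicator (fun _ => (M * C / R ^ 2) ^ p) z :=
            indicator_nonneg (fun _ _ => by positivity) z
          have h7 : 0 ≤ ‖g z‖ ^ p := by positivity
          linarith
    have hint2 : Integrable ((closedBall (0 : ℂ) (2 * R)).indicator
        (fun _ => (M * C / R ^ 2) ^ p)) := by
      rw [integrable_indicator_iff measurableSet_closedBall]
      apply integrableOn_const
      · exact (measure_closedBall_lt_top).ne
      · simp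
    calc ∫ z, ‖dzb (ct R F) z‖ ^ p ≤ ∫ z, (‖g z‖ ^ p
        + (closedBall (0 : ℂ) (2 * R)).indicator (fun _ => (M * C / R ^ 2) ^ p) z) := by
          apply integral_mono_of_nonneg
          · exact Eventually.of_forall fun z => by positivity
          · exact hgi.add hint2
          · exact Eventually.of_forall hpt
      _ = (∫ z, ‖g z‖ ^ p) + (2 * R) ^ 2 * Real.pi * (M * C / R ^ 2) ^ p := by
          rw [integral_add hgi hint2, integral_indicator measurableSet_closedBall,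
            setIntegral_const, Measure.real, Complex.volume_closedBall, ENNReal.toReal_mul,
            ENNReal.toReal_pow, ENNReal.toReal_ofReal (by positivity), smul_eq_mul]
          simp
      _ ≤ (∫ z, ‖g z‖ ^ p) + (M * C) ^ p * (4 * Real.pi) / R ^ 2 := by
          gcongr
          rw [Real.div_rpow (by positivity) (by positivity)]
          have h8 : (R ^ 2) ^ (2 : ℝ) ≤ (R ^ 2) ^ p :=
            Real.rpow_le_rpow_of_exponent_le (by nlinarith) hp
          rw [Real.rpow_two] at h8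
          have h9 : (M * C) ^ p / (R ^ 2) ^ p ≤ (M * C) ^ p / (R ^ 2) ^ 2 := by
            gcongr
          calc (2 * R) ^ 2 * Real.pi * ((M * C) ^ p / (R ^ 2) ^ p)
              ≤ (2 * R) ^ 2 * Real.pi * ((M * C) ^ p / (R ^ 2) ^ 2) := by gcongr
            _ = (M * C) ^ p * (4 * Real.pi) / R ^ 2 := by
              field_simp
              ring
  have key2 : ∀ r : ℝ, ∀ R : ℝ, R0 ≤ R → r ≤ R → ∫ z in ball (0 : ℂ) r, ‖dz F z‖ ^ p
      ≤ A * ((∫ z, ‖g z‖ ^ p) + (M * C) ^ p * (4 * Real.pi) / R ^ 2) := by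
    intro r R hR hr
    have hRp : 0 < R := by linarith
    have h1 := hIW (ct R F) (contDiff_ct hF) (hasCompactSupport_ct hRp F)
    have h2 := mul_le_mul_of_nonneg_left (key R hR) hA
    refine le_trans ?_ (h1.trans h2)
    have e1 : ∫ z in ball (0 : ℂ) r, ‖dz F z‖ ^ p = ∫ z in ball (0 : ℂ) r, ‖dz (ct R F) z‖ ^ p := by
      apply setIntegral_congr_fun measurableSet_ball
      intro z hz
      rw [mem_ball, dist_zero_right] at hz
      have : dz (ct R F) z = dz F z := by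
        unfold dz
        rw [ctz_eq hRp (hz.trans_le hr)]
      simp only [this]
    rw [e1]
    apply setIntegral_le_integral
    · have hcs : HasCompactSupport (dz (ct R F)) := by
        have h1 : HasCompactSupport (fderiv ℝ (ct R F)) := (hasCompactSupport_ct hRp F).fderiv ℝ
        refine h1.mono ?_
        intro z hz
        rw [Function.mem_support] at hz ⊢
        intro h
        apply hz
        unfold dz
        rw [h]
        simp
      apply Continuous.integrable_of_hasCompactSupport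
      · exact (continuous_dz (contDiff_ct hF)).norm.rpow_const (fun _ => Or.inr hp0)
      · apply hcs.norm.comp_left (g := fun t : ℝ => t ^ p)
        exact Real.zero_rpow (by linarith)
    · exact Eventually.of_forall fun z => by positivity
  have key3 : ∀ r : ℝ, ∫ z in ball (0 : ℂ) r, ‖dz F z‖ ^ p ≤ A * ∫ z, ‖g z‖ ^ p := by
    intro r
    have hlim : Tendsto (fun R : ℝ => A * ((∫ z, ‖g z‖ ^ p) + (M * C) ^ p * (4 * Real.pi) / R ^ 2))
        atTop (𝓝 (A * ((∫ z, ‖g z‖ ^ p) + 0))) := by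
      apply Tendsto.const_mul
      apply Tendsto.const_add
      apply Tendsto.const_div_atTop
      exact tendsto_pow_atTop (by norm_num)
    rw [add_zero] at hlim
    apply ge_of_tendsto hlim
    filter_upwards [eventually_ge_atTop R0, eventually_ge_atTop r] with R h1 h2
    exact key2 r R h1 h2
  have hcov : AECover (volume : Measure ℂ) atTop (fun n : ℕ => ball (0 : ℂ) (n : ℝ)) :=
    aecover_ball tendsto_natCast_atTop_atTop
  have hint : Integrable (fun z => ‖dz F z‖ ^ p) := by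
    apply hcov.integrable_of_integral_bounded_of_nonneg_ae (A * ∫ z, ‖g z‖ ^ p)
    · intro n
      exact (hcz.continuousOn.integrableOn_compact (isCompact_closedBall (0 : ℂ) (n : ℝ))).mono_set
        ball_subset_closedBall
    · exact Eventually.of_forall fun z => by positivity
    · exact Eventually.of_forall fun n => key3 n
  refine ⟨hint, ?_⟩
  have hlim2 := hcov.integral_tendsto_of_countably_generated hint
  exact le_of_tendsto hlim2 (Eventually.of_forall fun n => key3 n)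

end Pool.Agent.W191.IW.Cut
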